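import Mathlib
open Finset

namespace Pool.Agent.Helper398.SS

section comb
variable {α : Type*} [DecidableEq α]

/-- `x` is a subset sum of `f` over `Y` -/
def Rep (f : α → ℕ) (Y : Finset α) (x : ℕ) : Prop := ∃ B ⊆ Y, ∑ a ∈ B, f a = x

theorem Rep.mono {f : α → ℕ} {Y Z : Finset α} (h : Y ⊆ Z) {x : ℕ} (hx : Rep f Y x) :
    Rep f Z x := by
  obtain ⟨B, hB, h1⟩ := hx
  exact ⟨B, hB.trans h, h1⟩

theorem Rep.add {f : α → ℕ} {Y Z : Finset α} (h : Disjoint Y Z) {x y : ℕ}
    (hx : Rep f Y x) (hy : Rep f Z y) : Rep f (Y ∪ Z) (x + y) := by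
  obtain ⟨B, hB, h1⟩ := hx
  obtain ⟨C, hC, h2⟩ := hy
  refine ⟨B ∪ C, union_subset_union hB hC, ?_⟩
  rw [sum_union (disjoint_of_subset_left hB (disjoint_of_subset_right hC h)), h1, h2]

theorem rep_zero (f : α → ℕ) (Y : Finset α) : Rep f Y 0 := ⟨∅, empty_subset _, by simp⟩

theorem Rep.compl {f : α → ℕ} {Y : Finset α} {x : ℕ} (hx : Rep f Y x) :
    Rep f Y (∑ a ∈ Y, f a - x) := by
  obtain ⟨B, hB, h1⟩ := hx
  refine ⟨Y \ B, sdiff_subset, ?_⟩
  have := sum_sdiff hB (f := f)
  omega

theorem rep_ext {f : α → ℕ} (E : Finset α) : ∀ (Y : Finset α) (u v : ℕ), Disjoint Y E →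
    (∀ e ∈ E, f e + u ≤ v + 1) →
    (∀ x, u ≤ x → x ≤ v → Rep f Y x) → ∀ x, u ≤ x → x ≤ v + ∑ e ∈ E, f e →
      Rep f (Y ∪ E) x := by
  induction E using Finset.induction_on with
  | empty =>
    intro Y u v _ _ hY x h1 h2
    rw [union_empty]
    apply hY x h1
    simpa using h2
  | insert e E he ih =>
    intro Y u v hd hE hY x hx1 hx2
    have heY : e ∉ Y := by
      intro h
      exact (disjoint_left.mp hd h) (mem_insert_self _ _)
    rw [sum_insert he] at hx2
    have hfe := hE e (mem_insert_self _ _)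
    have key := ih (Y ∪ {e}) u (v + f e) (by
      rw [disjoint_union_left]
      constructor
      · exact disjoint_of_subset_right (subset_insert _ _) hd
      · rw [disjoint_singleton_left]; exact he) (by
      intro e' he'
      have := hE e' (mem_insert_of_mem he')
      omega) (by
      intro y hy1 hy2
      rcases Nat.lt_or_ge v y with h | h
      · have h3 : Rep f Y (y - f e) := hY _ (by omega) (by omega)
        have h4 : Rep f {e} (f e) := ⟨{e}, Subset.refl _, by simp⟩
        have h5 := Rep.add (by rw [disjoint_singleton_right]; exact heY) h3 h4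
        have e1 : y - f e + f e = y := by omega
        rwa [e1] at h5
      · exact (hY y hy1 h).mono subset_union_left)
    have := key x hx1 (by omega)
    have e2 : Y ∪ insert e E = Y ∪ {e} ∪ E := by
      ext z
      simp only [mem_union, mem_insert, mem_singleton]
      tauto
    rw [e2]
    exact this

/-- pair sums -/
theorem rep_pair {f : α → ℕ} (P : Finset α) (L μ : ℕ) (hinj : Set.InjOn f P)
    (hr : ∀ a ∈ P, 1 ≤ f a ∧ f a ≤ L) (hc : L ≤ P.card + μ) (x : ℕ) (hx1 : 2 * μ + 3 ≤ x)
    (hx2 : x ≤ L + 1) : Rep f (P.filter (fun a => f a ≤ x)) x := by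
  set T := P.image f with hT
  have hTc : T.card = P.card := card_image_of_injOn hinj
  have hTs : T ⊆ Icc 1 L := by
    intro y hy
    rw [hT, mem_image] at hy
    obtain ⟨a, ha, rfl⟩ := hy
    rw [mem_Icc]
    exact hr a ha
  have hmiss : (Icc 1 L \ T).card ≤ μ := by
    rw [card_sdiff_of_subset hTs, Nat.card_Icc, hTc]
    omega
  by_cases hex : ∃ i, 1 ≤ i ∧ i ≤ (x - 1) / 2 ∧ i ∈ T ∧ x - i ∈ T
  · obtain ⟨i, hi1, hi2, hi3, hi4⟩ := hex
    rw [hT, mem_image] at hi3 hi4
    obtain ⟨a, ha, hai⟩ := hi3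
    obtain ⟨b, hb, hbi⟩ := hi4
    have hab : a ≠ b := by
      rintro rfl
      omega
    refine ⟨{a, b}, ?_, ?_⟩
    · intro y hy
      rw [mem_insert, mem_singleton] at hy
      rw [mem_filter]
      rcases hy with rfl | rfl
      · exact ⟨ha, by omega⟩
      · exact ⟨hb, by omega⟩
    · rw [sum_pair hab, hai, hbi]
      omega
  · exfalso
    push Not at hex
    have h1 : (Icc 1 ((x - 1) / 2)).card ≤ (Icc 1 L \ T).card := by
      apply card_le_card_of_injOn (fun i => if i ∈ T then x - i else i)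
      · intro i hi
        rw [mem_coe, mem_Icc] at hi
        simp only [mem_coe]
        rw [mem_sdiff, mem_Icc]
        split_ifs with h
        · exact ⟨⟨by omega, by omega⟩, hex i hi.1 hi.2 h⟩
        · exact ⟨⟨by omega, by omega⟩, h⟩
      · intro i hi j hj hij
        rw [mem_coe, mem_Icc] at hi hj
        simp only at hij
        split_ifs at hij <;> omega
    rw [Nat.card_Icc] at h1
    omega

/-- counting: `f` at most two-to-one -/
theorem card_two {f : α → ℕ} (A : Finset α) (T : Finset ℕ)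
    (h2 : ∀ v ∈ T, (A.filter (fun a => f a = v)).card ≤ 2) (hA : ∀ a ∈ A, f a ∈ T) :
    A.card ≤ 2 * T.card := by
  apply card_le_mul_card_image_of_maps_to hA
  exact h2

/-- lower bound for the total, by layers -/
theorem total_layers {f : α → ℕ} (A : Finset α) (V : ℕ) :
    ∑ v ∈ Icc 1 V, (A.filter (fun a => v ≤ f a)).card ≤ ∑ a ∈ A, f a := by
  have h1 : ∀ v ∈ Icc 1 V, (A.filter (fun a => v ≤ f a)).card
      = ∑ a ∈ A, if v ≤ f a then 1 else 0 := by
    intro v _
    rw [card_filter]
  rw [sum_congr rfl h1, sum_comm]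
  apply sum_le_sum
  intro a _
  rw [← card_filter]
  calc (filter (fun v => v ≤ f a) (Icc 1 V)).card ≤ (Icc 1 (f a)).card := by
        apply card_le_card
        intro v hv
        rw [mem_filter, mem_Icc] at hv
        rw [mem_Icc]
        exact ⟨hv.1.1, hv.2⟩
    _ = f a := by rw [Nat.card_Icc]; omega

/-- lower bound on the total when `f` is at most two-to-one and positive -/
theorem total_lower {f : α → ℕ} (A : Finset α) (h0 : ∀ a ∈ A, 1 ≤ f a)
    (h2 : ∀ v, 1 ≤ v → (A.filter (fun a => f a = v)).card ≤ 2) (V : ℕ) (j : ℕ) (hj : 1 ≤ j)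
    (hjA : ∀ a ∈ A, f a ≠ j) (hjV : j ≤ V) (hV : 2 * V ≤ A.card + 2) :
    V * (A.card + 1 - V) + 2 * (V - j) ≤ ∑ a ∈ A, f a := by
  refine le_trans ?_ (total_layers A V)
  have h1 : ∀ v ∈ Icc 1 V, ((A.card : ℤ) - 2 * ((v : ℤ) - 1) + (if j < v then 2 else 0))
      ≤ ((A.filter (fun a => v ≤ f a)).card : ℤ) := by
    intro v hv
    rw [mem_Icc] at hv
    have h3 : (A.filter (fun a => ¬ (v ≤ f a))).card ≤ 2 * ((Ico 1 v).erase j).card := by
      apply card_two (f := f)
      · intro u hu
        rw [mem_erase, mem_Ico] at hu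
        refine le_trans (card_le_card ?_) (h2 u hu.2.1)
        intro a ha
        rw [mem_filter, mem_filter] at ha
        rw [mem_filter]
        exact ⟨ha.1.1, ha.2⟩
      · intro a ha
        rw [mem_filter] at ha
        rw [mem_erase, mem_Ico]
        exact ⟨hjA a ha.1, h0 a ha.1, by omega⟩
    have h4 := card_filter_add_card_filter_not (s := A) (fun a => v ≤ f a)
    split_ifs with h
    · have h5 : ((Ico 1 v).erase j).card = v - 1 - 1 := by
        rw [card_erase_of_mem (by rw [mem_Ico]; omega), Nat.card_Ico]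
      rw [h5] at h3
      omega
    · have h5 : ((Ico 1 v).erase j).card ≤ v - 1 := by
        refine (card_erase_le).trans ?_
        rw [Nat.card_Ico]
      omega
  have h6 := sum_le_sum h1
  have h7a : ∀ V : ℕ, ∑ v ∈ Icc 1 V, ((A.card : ℤ) - 2 * ((v : ℤ) - 1))
      = V * (A.card + 1 - V) := by
    intro V
    induction V with
    | zero => simp
    | succ V ih =>
      rw [Finset.sum_Icc_succ_top (by omega), ih]
      push_cast
      ring
  have h7b : ∑ v ∈ Icc 1 V, (if j < v then (2 : ℤ) else 0) = 2 * (V - j) := by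
    rw [← sum_filter, sum_const]
    have : filter (fun v => j < v) (Icc 1 V) = Ioc j V := by
      ext v
      rw [mem_filter, mem_Icc, mem_Ioc]
      omega
    rw [this, Nat.card_Ioc, nsmul_eq_mul]
    push_cast [Nat.cast_sub hjV]
    ring
  have h7 : ∑ v ∈ Icc 1 V, ((A.card : ℤ) - 2 * ((v : ℤ) - 1) + (if j < v then 2 else 0))
      = V * (A.card + 1 - V) + 2 * (V - j) := by
    rw [sum_add_distrib, h7a, h7b]
  rw [h7] at h6
  have h9 : ((V * (A.card + 1 - V) + 2 * (V - j) : ℕ) : ℤ)
      ≤ ((∑ v ∈ Icc 1 V, (A.filter (fun a => v ≤ f a)).card : ℕ) : ℤ) := by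
    rcases Nat.lt_or_ge (A.card + 1) V with h | h
    · have hA0 : A.card = 0 := by omega
      omega
    · push_cast [Nat.cast_sub h, Nat.cast_sub hjV]
      push_cast at h6
      linarith
  exact_mod_cast h9

end comb

end Pool.Agent.Helper398.SS
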